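import Mathlib

set_option autoImplicit false

namespace Pool.Agent.Lib.MP_f7662b_lc

open MvPolynomial

section Rev

variable {R : Type*} [CommRing R] {σ : Type*} [Fintype σ] [DecidableEq σ]

/-- exponent reversal in the distinguished coordinate -/
noncomputable def rev (i0 : σ) (M : ℕ) (α : σ →₀ ℕ) : σ →₀ ℕ :=
  Finsupp.equivFunOnFinite.symm (fun i => if i = i0 then M - α.degree else α i)

@[simp] lemma rev_apply (i0 : σ) (M : ℕ) (α : σ →₀ ℕ) (i : σ) :
    rev i0 M α i = if i = i0 then M - α.degree else α i := rfl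

/-- reversal of a polynomial with respect to the coordinate `i0` in degree `M` -/
noncomputable def hstar (i0 : σ) (M : ℕ) (h : MvPolynomial σ R) : MvPolynomial σ R :=
  ∑ α ∈ h.support, monomial (rev i0 M α) (coeff α h)

omit [Fintype σ] [DecidableEq σ] in
lemma degree_le_of_mem_support {h : MvPolynomial σ R} {α : σ →₀ ℕ} (hα : α ∈ h.support) :
    α.degree ≤ h.totalDegree := by
  exact MvPolynomial.le_totalDegree hα

lemma key_eval {Q : Type*} [CommRing Q] (ψ : MvPolynomial σ R →+* Q) (i0 : σ) (c : σ → R)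
    (h1 : ψ (C (c i0)) * ψ (X i0) = 1)
    (h2 : ∀ i, i ≠ i0 → ψ (C (c i0)) * ψ (X i) = ψ (C (c i)))
    (M : ℕ) (h : MvPolynomial σ R) (hM : h.totalDegree ≤ M) :
    ψ (C (c i0)) ^ M * ψ h = ψ (C (eval c (hstar i0 M h))) := by
  have hsum : h = ∑ α ∈ h.support, monomial α (coeff α h) := (support_sum_monomial_coeff h).symm
  have hs : ψ h = ∑ α ∈ h.support, ψ (monomial α (coeff α h)) := by
    conv_lhs => rw [hsum]
    rw [map_sum]
  rw [hs, Finset.mul_sum]
  unfold hstar
  rw [map_sum, map_sum, map_sum]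
  apply Finset.sum_congr rfl
  intro α hα
  have hdeg : α.degree ≤ M := (degree_le_of_mem_support hα).trans hM
  rw [eval_monomial, monomial_eq, map_mul, map_mul, map_mul]
  have e1 : ψ (α.prod fun n e => X n ^ e) = ∏ i, ψ (X i) ^ α i := by
    rw [Finsupp.prod_fintype _ _ (by intro i; simp), map_prod]
    simp
  have e2 : ψ (C ((rev i0 M α).prod fun n e => c n ^ e)) =
      ∏ i, ψ (C (c i)) ^ (rev i0 M α i) := by
    rw [Finsupp.prod_fintype _ _ (by intro i; simp), map_prod, map_prod]
    apply Finset.prod_congr rfl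
    intro i _
    rw [map_pow, map_pow]
  rw [e1, e2]
  have key : ψ (C (c i0)) ^ M * ∏ i, ψ (X i) ^ α i = ∏ i, ψ (C (c i)) ^ (rev i0 M α i) := by
    have hd : M = (M - α.degree) + α.degree := by omega
    have hd2 : ψ (C (c i0)) ^ α.degree = ∏ i, ψ (C (c i0)) ^ α i := by
      rw [Finset.prod_pow_eq_pow_sum, Finsupp.degree_eq_sum]
    conv_lhs => rw [hd, pow_add, hd2, mul_assoc, ← Finset.prod_mul_distrib]
    have h3 : ∀ i, ψ (C (c i0)) ^ α i * ψ (X i) ^ α i =
        if i = i0 then 1 else ψ (C (c i)) ^ α i := by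
      intro i
      rw [← mul_pow]
      by_cases hi : i = i0
      · subst hi
        simp [h1]
      · simp [hi, h2 i hi]
    simp only [h3]
    rw [← Finset.mul_prod_erase Finset.univ (fun i => ψ (C (c i)) ^ (rev i0 M α i))
      (Finset.mem_univ i0)]
    rw [← Finset.mul_prod_erase Finset.univ (fun i => if i = i0 then 1 else ψ (C (c i)) ^ α i)
      (Finset.mem_univ i0)]
    simp only [rev_apply, if_true, one_mul]
    congr 1
    apply Finset.prod_congr rfl
    intro i hi
    have : i ≠ i0 := (Finset.mem_erase.mp hi).1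
    simp [this]
  rw [← key]
  ring

lemma coeff_hstar (i0 : σ) (M : ℕ) (h : MvPolynomial σ R) (hM : h.totalDegree ≤ M)
    (α : σ →₀ ℕ) (hα : α ∈ h.support) :
    coeff (rev i0 M α) (hstar i0 M h) = coeff α h := by
  unfold hstar
  rw [coeff_sum]
  rw [Finset.sum_eq_single α]
  · simp
  · intro β hβ hne
    rw [coeff_monomial, if_neg]
    intro heq
    apply hne
    have hdβ : β.degree ≤ M := (degree_le_of_mem_support hβ).trans hM
    have hdα : α.degree ≤ M := (degree_le_of_mem_support hα).trans hM
    have hcoord : ∀ i, i ≠ i0 → β i = α i := by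
      intro i hi
      have := DFunLike.congr_fun heq i
      simpa [hi] using this
    have h0 : β.degree = α.degree := by
      have := DFunLike.congr_fun heq i0
      simp at this
      omega
    ext i
    by_cases hi : i = i0
    · subst hi
      have e1 : β.degree = β i + ∑ j ∈ Finset.univ.erase i, β j := by
        rw [Finsupp.degree_eq_sum, Finset.add_sum_erase _ _ (Finset.mem_univ i)]
      have e2 : α.degree = α i + ∑ j ∈ Finset.univ.erase i, α j := by
        rw [Finsupp.degree_eq_sum, Finset.add_sum_erase _ _ (Finset.mem_univ i)]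
      have e3 : ∑ j ∈ Finset.univ.erase i, β j = ∑ j ∈ Finset.univ.erase i, α j := by
        apply Finset.sum_congr rfl
        intro j hj
        exact hcoord j (Finset.mem_erase.mp hj).1
      omega
    · exact hcoord i hi
  · intro h'
    exact absurd hα h'

/-- if `X i0 ^ e` divides the reversal in degree `M`, then the total degree drops -/
lemma totalDegree_le_of_dvd (i0 : σ) (M e : ℕ) (h : MvPolynomial σ R) (hM : h.totalDegree ≤ M)
    (hdvd : (X i0 : MvPolynomial σ R) ^ e ∣ hstar i0 M h) : h.totalDegree ≤ M - e := by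
  obtain ⟨q, hq⟩ := hdvd
  rw [MvPolynomial.totalDegree]
  apply Finset.sup_le
  intro α hα
  have hle : α.degree ≤ M := (degree_le_of_mem_support hα).trans hM
  have h1 : coeff (rev i0 M α) (hstar i0 M h) ≠ 0 := by
    rw [coeff_hstar i0 M h hM α hα]
    exact mem_support_iff.mp hα
  rw [hq, X_pow_eq_monomial, coeff_monomial_mul'] at h1
  have h2 : Finsupp.single i0 e ≤ rev i0 M α := by
    by_contra hcon
    simp [hcon] at h1
  have h3 : e ≤ M - α.degree := by
    have := h2 i0
    simpa using this
  change α.degree ≤ M - e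
  omega

omit [DecidableEq σ] in
lemma exists_sum_iff (γ : σ → R) (F : MvPolynomial σ R) :
    (∃ w : σ → MvPolynomial σ R, F = ∑ i, w i * (X i - C (γ i))) ↔ eval γ F = 0 := by
  constructor
  · rintro ⟨w, rfl⟩
    rw [map_sum]
    apply Finset.sum_eq_zero
    intro i _
    simp
  · intro h
    have key : ∀ G : MvPolynomial σ R,
        G - C (eval γ G) ∈ Ideal.span (Set.range (fun i => (X i - C (γ i) : MvPolynomial σ R))) := by
      intro G
      induction G using MvPolynomial.induction_on with
      | C a => simp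
      | add p q hp hq =>
        have : p + q - C (eval γ (p + q)) = (p - C (eval γ p)) + (q - C (eval γ q)) := by
          simp only [map_add]; ring
        rw [this]
        exact Ideal.add_mem _ hp hq
      | mul_X p i hp =>
        have : p * X i - C (eval γ (p * X i)) =
            X i * (p - C (eval γ p)) + C (eval γ p) * (X i - C (γ i)) := by
          simp only [map_mul, eval_X]; ring
        rw [this]
        exact Ideal.add_mem _ (Ideal.mul_mem_left _ _ hp)
          (Ideal.mul_mem_left _ _ (Ideal.subset_span ⟨i, rfl⟩))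
    have h1 := key F
    rw [h, map_zero, sub_zero, Ideal.mem_span_range_iff_exists_fun] at h1
    obtain ⟨w, hw⟩ := h1
    exact ⟨w, hw.symm⟩

/-- the generators of the ideal of the point `(1/γ i0, γ i/γ i0)` -/
noncomputable def jgen (i0 : σ) (γ : σ → R) (i : σ) : MvPolynomial σ R :=
  C (γ i0) * X i - (if i = i0 then 1 else C (γ i))

lemma jgen_backward (i0 : σ) (γ : σ → R) (N : ℕ) (h : MvPolynomial σ R)
    (hN : h.totalDegree ≤ N) :
    ∃ w : σ → MvPolynomial σ R,
      C (γ i0) ^ N * h - C (eval γ (hstar i0 N h)) = ∑ i, w i * jgen i0 γ i := by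
  let I : Ideal (MvPolynomial σ R) := Ideal.span (Set.range (jgen i0 γ))
  have hmem : ∀ i, jgen i0 γ i ∈ I := fun i => Ideal.subset_span ⟨i, rfl⟩
  have h1 : Ideal.Quotient.mk I (C (γ i0)) * Ideal.Quotient.mk I (X i0) = 1 := by
    rw [← map_mul, ← map_one (Ideal.Quotient.mk I), Ideal.Quotient.eq]
    have := hmem i0
    simpa [jgen] using this
  have h2 : ∀ i, i ≠ i0 → Ideal.Quotient.mk I (C (γ i0)) * Ideal.Quotient.mk I (X i) =
      Ideal.Quotient.mk I (C (γ i)) := by
    intro i hi
    rw [← map_mul, Ideal.Quotient.eq]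
    have := hmem i
    simpa [jgen, hi] using this
  have h3 := key_eval (Ideal.Quotient.mk I) i0 γ h1 h2 N h hN
  rw [← map_pow, ← map_mul, Ideal.Quotient.eq, Ideal.mem_span_range_iff_exists_fun] at h3
  obtain ⟨w, hw⟩ := h3
  exact ⟨w, hw.symm⟩

lemma jgen_forward [IsDomain R] (i0 : σ) (γ : σ → R) (hγ : γ i0 ≠ 0) (M : ℕ)
    (h : MvPolynomial σ R) (hM : h.totalDegree ≤ M) (e b : R) (w : σ → MvPolynomial σ R)
    (hw : C e * h - C b = ∑ i, w i * jgen i0 γ i) :
    e * eval γ (hstar i0 M h) = γ i0 ^ M * b := by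
  let K := FractionRing R
  have hinj : Function.Injective (algebraMap R K) := IsFractionRing.injective R K
  have hγ' : algebraMap R K (γ i0) ≠ 0 := by
    intro h0
    apply hγ
    apply hinj
    simpa using h0
  let ψ : MvPolynomial σ R →+* K := eval₂Hom (algebraMap R K)
    (fun i => if i = i0 then (algebraMap R K (γ i0))⁻¹
      else algebraMap R K (γ i) / algebraMap R K (γ i0))
  have hC : ∀ r, ψ (C r) = algebraMap R K r := fun r => by simp [ψ]
  have h1 : ψ (C (γ i0)) * ψ (X i0) = 1 := by
    simp only [ψ, coe_eval₂Hom, eval₂_C, eval₂_X, if_true]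
    exact mul_inv_cancel₀ hγ'
  have h2 : ∀ i, i ≠ i0 → ψ (C (γ i0)) * ψ (X i) = ψ (C (γ i)) := by
    intro i hi
    simp only [ψ, coe_eval₂Hom, eval₂_C, eval₂_X, if_neg hi]
    exact mul_div_cancel₀ _ hγ'
  have h3 := key_eval ψ i0 γ h1 h2 M h hM
  have h4 : ψ (C e * h - C b) = 0 := by
    rw [hw, map_sum]
    apply Finset.sum_eq_zero
    intro i _
    rw [map_mul]
    have : ψ (jgen i0 γ i) = 0 := by
      unfold jgen
      by_cases hi : i = i0
      · subst hi
        rw [if_pos rfl, map_sub, map_mul, h1, map_one, sub_self]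
      · rw [if_neg hi, map_sub, map_mul, h2 i hi, sub_self]
    rw [this, mul_zero]
  rw [map_sub, map_mul, hC, hC, sub_eq_zero] at h4
  rw [hC, hC] at h3
  apply hinj
  rw [map_mul, map_mul, map_pow, ← h3, ← h4]
  ring

/-- Horner-type decomposition of a polynomial of total degree at most `N + 1` -/
lemma horner (N : ℕ) (h : MvPolynomial σ R) (hN : h.totalDegree ≤ N + 1) :
    ∃ (b : R) (w : σ → MvPolynomial σ R), (∀ i, (w i).totalDegree ≤ N) ∧
      h = C b + ∑ i, w i * X i := by
  let p : MvPolynomial σ R → Prop := fun h => ∃ (b : R) (w : σ → MvPolynomial σ R),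
    (∀ i, (w i).totalDegree ≤ N) ∧ h = C b + ∑ i, w i * X i
  have hadd : ∀ a b, p a → p b → p (a + b) := by
    rintro _ _ ⟨b1, w1, h1, rfl⟩ ⟨b2, w2, h2, rfl⟩
    refine ⟨b1 + b2, fun i => w1 i + w2 i, fun i => ?_, ?_⟩
    · exact (totalDegree_add _ _).trans (max_le (h1 i) (h2 i))
    · simp only [map_add, add_mul, Finset.sum_add_distrib]
      ring
  have h0 : p 0 := ⟨0, fun _ => 0, fun i => by simp, by simp⟩
  have hmon : ∀ (α : σ →₀ ℕ) (a : R), α.degree ≤ N + 1 → p (monomial α a) := by
    intro α a hα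
    by_cases h : α = 0
    · subst h
      exact ⟨a, fun _ => 0, fun i => by simp, by simp⟩
    · obtain ⟨i, hi⟩ : ∃ i, α i ≠ 0 := by
        by_contra hcon
        push Not at hcon
        exact h (Finsupp.ext hcon)
      have hle : Finsupp.single i 1 ≤ α := by
        rw [Finsupp.single_le_iff]
        omega
      have hαeq : (α - Finsupp.single i 1) + Finsupp.single i 1 = α :=
        tsub_add_cancel_of_le hle
      refine ⟨0, fun j => if j = i then monomial (α - Finsupp.single i 1) a else 0, ?_, ?_⟩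
      · intro j
        by_cases hj : j = i
        · simp only [hj, if_true]
          apply (totalDegree_monomial_le _ _).trans
          have h1 : (α - Finsupp.single i 1).degree + 1 = α.degree := by
            conv_rhs => rw [← hαeq]
            rw [map_add, Finsupp.degree_single]
          change (α - Finsupp.single i 1).degree ≤ N
          omega
        · simp [hj]
      · rw [map_zero, zero_add, Finset.sum_eq_single i]
        · simp only [if_true]
          rw [X, monomial_mul, mul_one, hαeq]
        · intro j _ hj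
          simp [hj]
        · intro h'
          exact absurd (Finset.mem_univ i) h'
  have : p (∑ α ∈ h.support, monomial α (coeff α h)) := by
    apply Finset.sum_induction _ p hadd h0
    intro α hα
    exact hmon α _ ((degree_le_of_mem_support hα).trans hN)
  rw [support_sum_monomial_coeff] at this
  exact this

end Rev

section General

variable {H : Type*} [CommRing H] {σ : Type*} [Fintype σ] [DecidableEq σ]

/-- `f` lies in the ideal generated by the `y i - c i` -/
def InI (y c : σ → H) (f : H) : Prop := ∃ w : σ → H, f = ∑ i, w i * (y i - c i)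

/-- `f` lies in the ideal of the inverted point -/
def InJ (i0 : σ) (y c : σ → H) (f : H) : Prop :=
  ∃ w : σ → H, f = ∑ i, w i * (c i0 * y i - (if i = i0 then 1 else c i))

/-- the filtration predicate -/
def VV (A : H → Prop) (i0 : σ) (y : σ → H) (h T : H) : Prop :=
  ∃ g, ∀ c : σ → H, (∀ i, A (c i)) → c i0 ≠ 0 → ∀ b e, A b → A e →
    InI y c (g - b) → InI y c (T - e) → InJ i0 y c (e * h - b)

/-- the first-order condition forcing generation -/
def Theta (A : H → Prop) (i0 : σ) (y : σ → H) : Prop :=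
  ¬ IsUnit (y i0) ∧ (∀ h, ∃ T, T ≠ 0 ∧ VV A i0 y h T) ∧
    ∀ h T, T ≠ 0 → VV A i0 y h T → A h ∨
      ∃ T' b, ∃ w : σ → H, T = T' * y i0 ∧ A b ∧ (∀ i, VV A i0 y (w i) T') ∧
        h = b + ∑ i, w i * y i

/-- soundness: a subring containing `A` and the `y i` is everything -/
lemma Theta.mem_of [IsDomain H] [WfDvdMonoid H] {A : H → Prop} {i0 : σ} {y : σ → H}
    (hT : Theta A i0 y) (S : Subring H) (hA : ∀ a, A a → a ∈ S) (hy : ∀ i, y i ∈ S) (h : H) :
    h ∈ S := by
  obtain ⟨hu, hex, hstep⟩ := hT
  have key : ∀ T : H, T ≠ 0 → ∀ h, VV A i0 y h T → h ∈ S := by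
    intro T
    induction T using (wellFounded_dvdNotUnit (α := H)).induction with
    | _ T ih =>
      intro hT0 h hV
      rcases hstep h T hT0 hV with h1 | ⟨T', b, w, hTT', hb, hw, rfl⟩
      · exact hA h h1
      · have hT'0 : T' ≠ 0 := by
          rintro rfl
          simp at hTT'
          exact hT0 hTT'
        have hlt : DvdNotUnit T' T := ⟨hT'0, y i0, hu, hTT'⟩
        apply S.add_mem (hA b hb)
        apply S.sum_mem
        intro i _
        exact S.mul_mem (ih T' hlt hT'0 (w i) (hw i)) (hy i)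
  obtain ⟨T, hT0, hV⟩ := hex h
  exact key T hT0 h hV

variable {R : Type*} [CommRing R]

lemma VV_iff [IsDomain R] [Infinite R] (Φ : MvPolynomial σ R ≃+* H) (i0 : σ)
    (h T : MvPolynomial σ R) (hT : T ≠ 0) :
    VV (fun f => ∃ r, f = Φ (C r)) i0 (fun i => Φ (X i)) (Φ h) (Φ T) ↔
      ∃ N, (X i0) ^ N ∣ T ∧ h.totalDegree ≤ N := by
  constructor
  · rintro ⟨g, hg⟩
    obtain ⟨G, rfl⟩ := Φ.surjective g
    set M := h.totalDegree with hM
    have h1 : ∀ γ : σ → R, γ i0 ≠ 0 →
        eval γ T * eval γ (hstar i0 M h) = γ i0 ^ M * eval γ G := by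
      intro γ hγ
      have h2 := hg (fun i => Φ (C (γ i))) (fun i => ⟨γ i, rfl⟩)
        (by simpa using hγ)
        (Φ (C (eval γ G))) (Φ (C (eval γ T))) ⟨_, rfl⟩ ⟨_, rfl⟩
      have hI : ∀ F : MvPolynomial σ R, InI (fun i => Φ (X i)) (fun i => Φ (C (γ i)))
          (Φ F - Φ (C (eval γ F))) := by
        intro F
        obtain ⟨w, hw⟩ := (exists_sum_iff γ (F - C (eval γ F))).mpr (by simp)
        refine ⟨fun i => Φ (w i), ?_⟩
        rw [← map_sub, hw, map_sum]
        simp
      obtain ⟨w, hw⟩ := h2 (hI G) (hI T)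
      apply jgen_forward i0 γ hγ M h le_rfl _ _ (fun i => Φ.symm (w i))
      apply Φ.injective
      rw [map_sum, map_sub, map_mul, hw]
      apply Finset.sum_congr rfl
      intro i _
      unfold jgen
      by_cases hi : i = i0
      · simp [hi]
      · simp [hi]
    have h3 : T * hstar i0 M h = X i0 ^ M * G := by
      have h4 : X i0 * (T * hstar i0 M h - X i0 ^ M * G) = 0 := by
        apply MvPolynomial.funext
        intro γ
        by_cases hγ : γ i0 = 0
        · simp [hγ]
        · have := h1 γ hγ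
          simp only [map_mul, map_sub, map_pow, eval_X, map_zero]
          rw [this, sub_self, mul_zero]
      rcases mul_eq_zero.mp h4 with h5 | h5
      · exact absurd h5 (X_ne_zero i0)
      · exact sub_eq_zero.mp h5
    have hfin : FiniteMultiplicity (X i0 : MvPolynomial σ R) T := by
      refine ⟨T.totalDegree, fun hdvd => ?_⟩
      have := totalDegree_le_of_dvd_of_isDomain hdvd hT
      rw [totalDegree_X_pow] at this
      omega
    obtain ⟨T1, hT1, hnd⟩ := hfin.exists_eq_pow_mul_and_not_dvd
    set N := multiplicity (X i0 : MvPolynomial σ R) T with hN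
    refine ⟨N, ⟨T1, hT1⟩, ?_⟩
    by_cases hMN : M ≤ N
    · exact hMN
    · push Not at hMN
      have h6 : (X i0 : MvPolynomial σ R) ^ (M - N) ∣ hstar i0 M h := by
        apply X_prime.pow_dvd_of_dvd_mul_left (M - N) hnd
        have h7 : (X i0 : MvPolynomial σ R) ^ N * (T1 * hstar i0 M h) =
            X i0 ^ N * (X i0 ^ (M - N) * G) := by
          rw [← mul_assoc, ← hT1, h3, ← mul_assoc, ← pow_add]
          congr 2
          omega
        have h8 := mul_left_cancel₀ (pow_ne_zero N (X_ne_zero i0)) h7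
        exact ⟨G, h8⟩
      have h9 := totalDegree_le_of_dvd i0 M (M - N) h le_rfl h6
      omega
  · rintro ⟨N, ⟨T1, rfl⟩, hdeg⟩
    refine ⟨Φ (T1 * hstar i0 N h), ?_⟩
    intro c hc hc0 b e ⟨β, hβ⟩ ⟨ε, hε⟩ hIb hIe
    choose γ hγ using hc
    obtain rfl : c = fun i => Φ (C (γ i)) := funext hγ
    subst hβ hε
    have hI : ∀ F : MvPolynomial σ R, ∀ r : R,
        InI (fun i => Φ (X i)) (fun i => Φ (C (γ i))) (Φ F - Φ (C r)) → r = eval γ F := by
      rintro F r ⟨w, hw⟩
      have := (exists_sum_iff γ (F - C r)).mp ⟨fun i => Φ.symm (w i), by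
        apply Φ.injective
        rw [map_sub, hw, map_sum]
        simp⟩
      rw [map_sub, eval_C, sub_eq_zero] at this
      exact this.symm
    have hβ := hI _ _ hIb
    have hε := hI _ _ hIe
    obtain ⟨w, hw⟩ := jgen_backward i0 γ N h hdeg
    refine ⟨fun i => Φ (C (eval γ T1) * w i), ?_⟩
    have : C ε * h - C β = ∑ i, (C (eval γ T1) * w i) * jgen i0 γ i := by
      rw [hβ, hε]
      simp only [mul_assoc]
      rw [← Finset.mul_sum, ← hw]
      simp only [map_mul, map_pow, eval_X]
      ring
    rw [← map_mul, ← map_sub, this, map_sum]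
    apply Finset.sum_congr rfl
    intro i _
    unfold jgen
    by_cases hi : i = i0
    · simp [hi]
    · simp [hi]

/-- completeness: the standard generators satisfy the condition -/
lemma Theta_standard [IsDomain R] [Infinite R] (Φ : MvPolynomial σ R ≃+* H) (i0 : σ) :
    Theta (fun f => ∃ r, f = Φ (C r)) i0 (fun i => Φ (X i)) := by
  refine ⟨?_, ?_, ?_⟩
  · intro hu
    have h1 : IsUnit (X i0 : MvPolynomial σ R) := by
      have := hu.map Φ.symm
      simpa using this
    exact X_prime.not_isUnit h1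
  · intro h
    obtain ⟨h, rfl⟩ := Φ.surjective h
    refine ⟨Φ (X i0 ^ h.totalDegree), ?_, ?_⟩
    · rw [Ne, map_eq_zero_iff _ Φ.injective]
      exact pow_ne_zero _ (X_ne_zero i0)
    · exact (VV_iff Φ i0 h _ (pow_ne_zero _ (X_ne_zero i0))).mpr ⟨_, dvd_rfl, le_rfl⟩
  · intro h T hT hV
    obtain ⟨h, rfl⟩ := Φ.surjective h
    obtain ⟨T, rfl⟩ := Φ.surjective T
    have hT' : T ≠ 0 := by
      rintro rfl
      simp at hT
    obtain ⟨N, hN, hdeg⟩ := (VV_iff Φ i0 h T hT').mp hV
    cases N with
    | zero =>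
      left
      rw [Nat.le_zero, totalDegree_eq_zero_iff_eq_C] at hdeg
      exact ⟨_, congrArg Φ hdeg⟩
    | succ N =>
      right
      obtain ⟨T1, rfl⟩ := hN
      obtain ⟨b, w, hw, hh⟩ := horner N h hdeg
      refine ⟨Φ (X i0 ^ N * T1), Φ (C b), fun i => Φ (w i), ?_, ⟨b, rfl⟩, ?_, ?_⟩
      · rw [← map_mul]
        congr 1
        ring
      · intro i
        have hne : (X i0 : MvPolynomial σ R) ^ N * T1 ≠ 0 := by
          intro h0
          apply hT'
          rw [pow_succ', mul_assoc, h0, mul_zero]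
        exact (VV_iff Φ i0 (w i) _ hne).mpr ⟨N, dvd_mul_right _ _, hw i⟩
      · conv_lhs => rw [hh]
        simp

end General

end Pool.Agent.Lib.MP_f7662b_lc
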