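import Mathlib
import Pool.Agent.Lib.MP_f7662b_lc.Poly

set_option autoImplicit false

namespace Pool.Agent.Lib.MP_f7662b_lc

open FirstOrder FirstOrder.Language FirstOrder.Ring

section Def

variable {H : Type*} [CommRing H] [CompatibleRing H]

/-- functions given by a term of the language of rings -/
def TD {α : Type} (f : (α → H) → H) : Prop :=
  ∃ t : Language.ring.Term α, ∀ v : α → H, t.realize v = f v

/-- predicates given by a formula of the language of rings -/
def DD {α : Type} (P : (α → H) → Prop) : Prop :=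
  ∃ φ : Language.ring.Formula α, ∀ v : α → H, φ.Realize v ↔ P v

variable {α : Type}

lemma TD.var (a : α) : TD (H := H) (fun v : α → H => v a) := ⟨Term.var a, fun v => by simp⟩

lemma TD.zero : TD (H := H) (fun _ : α → H => 0) := ⟨0, fun v => by simp⟩

lemma TD.one : TD (H := H) (fun _ : α → H => 1) := ⟨1, fun v => by simp⟩

lemma TD.add {f g : (α → H) → H} (hf : TD f) (hg : TD g) : TD (fun v => f v + g v) := by
  obtain ⟨s, hs⟩ := hf
  obtain ⟨t, ht⟩ := hg
  exact ⟨s + t, fun v => by rw [realize_add, hs, ht]⟩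

lemma TD.mul {f g : (α → H) → H} (hf : TD f) (hg : TD g) : TD (fun v => f v * g v) := by
  obtain ⟨s, hs⟩ := hf
  obtain ⟨t, ht⟩ := hg
  exact ⟨s * t, fun v => by rw [realize_mul, hs, ht]⟩

lemma TD.neg {f : (α → H) → H} (hf : TD f) : TD (fun v => - f v) := by
  obtain ⟨s, hs⟩ := hf
  exact ⟨-s, fun v => by rw [realize_neg, hs]⟩

lemma TD.sub {f g : (α → H) → H} (hf : TD f) (hg : TD g) : TD (fun v => f v - g v) := by
  simpa only [sub_eq_add_neg] using hf.add hg.neg

lemma TD.pow {f : (α → H) → H} (hf : TD f) (n : ℕ) : TD (fun v => f v ^ n) := by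
  induction n with
  | zero => simpa using TD.one
  | succ n ih => simpa only [pow_succ] using ih.mul hf

lemma TD.sum {ι : Type*} (s : Finset ι) {f : ι → (α → H) → H} (hf : ∀ i, TD (f i)) :
    TD (fun v => ∑ i ∈ s, f i v) := by
  classical
  induction s using Finset.induction_on with
  | empty => simpa using TD.zero
  | insert i s hi ih => simpa only [Finset.sum_insert hi] using (hf i).add ih

lemma TD.prod {ι : Type*} (s : Finset ι) {f : ι → (α → H) → H} (hf : ∀ i, TD (f i)) :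
    TD (fun v => ∏ i ∈ s, f i v) := by
  classical
  induction s using Finset.induction_on with
  | empty => simpa using TD.one
  | insert i s hi ih => simpa only [Finset.prod_insert hi] using (hf i).mul ih

lemma TD.ite (p : Prop) [Decidable p] {f g : (α → H) → H} (hf : TD f) (hg : TD g) :
    TD (fun v => if p then f v else g v) := by
  by_cases h : p
  · simpa only [h, if_true] using hf
  · simpa only [h, if_false] using hg

lemma DD.eq {f g : (α → H) → H} (hf : TD f) (hg : TD g) : DD (fun v => f v = g v) := by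
  obtain ⟨s, hs⟩ := hf
  obtain ⟨t, ht⟩ := hg
  exact ⟨s.equal t, fun v => by rw [Formula.realize_equal, hs, ht]⟩

lemma DD.true : DD (H := H) (fun _ : α → H => True) :=
  ⟨⊤, fun v => by simp⟩

lemma DD.not {P : (α → H) → Prop} (hP : DD P) : DD (fun v => ¬ P v) := by
  obtain ⟨φ, h⟩ := hP
  exact ⟨∼φ, fun v => by rw [Formula.realize_not, h]⟩

lemma DD.and {P Q : (α → H) → Prop} (hP : DD P) (hQ : DD Q) : DD (fun v => P v ∧ Q v) := by
  obtain ⟨φ, h⟩ := hP
  obtain ⟨ψ, h'⟩ := hQ
  exact ⟨φ ⊓ ψ, fun v => by rw [Formula.realize_inf, h, h']⟩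

lemma DD.or {P Q : (α → H) → Prop} (hP : DD P) (hQ : DD Q) : DD (fun v => P v ∨ Q v) := by
  obtain ⟨φ, h⟩ := hP
  obtain ⟨ψ, h'⟩ := hQ
  exact ⟨φ ⊔ ψ, fun v => by rw [Formula.realize_sup, h, h']⟩

lemma DD.imp {P Q : (α → H) → Prop} (hP : DD P) (hQ : DD Q) : DD (fun v => P v → Q v) := by
  obtain ⟨φ, h⟩ := hP
  obtain ⟨ψ, h'⟩ := hQ
  exact ⟨φ.imp ψ, fun v => by rw [Formula.realize_imp, h, h']⟩

lemma DD.ne {f g : (α → H) → H} (hf : TD f) (hg : TD g) : DD (fun v => f v ≠ g v) :=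
  (DD.eq hf hg).not

lemma DD.allFin {β : Type} [Finite β] {P : β → (α → H) → Prop} (hP : ∀ b, DD (P b)) :
    DD (fun v => ∀ b, P b v) := by
  choose φ h using hP
  exact ⟨Formula.iInf φ, fun v => by
    rw [Formula.realize_iInf]
    exact forall_congr' fun b => h b v⟩

lemma DD.exFun (β : Type) [Finite β] {P : (α → H) → (β → H) → Prop}
    (hP : DD (fun v : α ⊕ β → H => P (fun a => v (Sum.inl a)) (fun b => v (Sum.inr b)))) :
    DD (fun v => ∃ w, P v w) := by
  obtain ⟨φ, h⟩ := hP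
  refine ⟨Formula.iExs β φ, fun v => ?_⟩
  rw [Formula.realize_iExs]
  apply exists_congr
  intro w
  rw [h]
  simp

lemma DD.allFun (β : Type) [Finite β] {P : (α → H) → (β → H) → Prop}
    (hP : DD (fun v : α ⊕ β → H => P (fun a => v (Sum.inl a)) (fun b => v (Sum.inr b)))) :
    DD (fun v => ∀ w, P v w) := by
  obtain ⟨φ, h⟩ := hP
  refine ⟨Formula.iAlls β φ, fun v => ?_⟩
  rw [Formula.realize_iAlls]
  apply forall_congr'
  intro w
  rw [h]
  simp

lemma DD.ex {P : (α → H) → H → Prop}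
    (hP : DD (fun v : α ⊕ Unit → H => P (fun a => v (Sum.inl a)) (v (Sum.inr ())))) :
    DD (fun v => ∃ x, P v x) := by
  have := DD.exFun Unit (P := fun v (w : Unit → H) => P v (w ())) hP
  obtain ⟨φ, h⟩ := this
  refine ⟨φ, fun v => (h v).trans ⟨fun ⟨w, hw⟩ => ⟨w (), hw⟩, fun ⟨x, hx⟩ => ⟨fun _ => x, hx⟩⟩⟩

lemma DD.all {P : (α → H) → H → Prop}
    (hP : DD (fun v : α ⊕ Unit → H => P (fun a => v (Sum.inl a)) (v (Sum.inr ())))) :
    DD (fun v => ∀ x, P v x) := by
  have := DD.allFun Unit (P := fun v (w : Unit → H) => P v (w ())) hP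
  obtain ⟨φ, h⟩ := this
  refine ⟨φ, fun v => (h v).trans ⟨fun hw x => hw (fun _ => x), fun hx w => hx (w ())⟩⟩

lemma TD.wk {β : Type} {f : (α → H) → H} (hf : TD f) (g : α → β) :
    TD (fun v : β → H => f (fun a => v (g a))) := by
  obtain ⟨t, ht⟩ := hf
  refine ⟨t.relabel g, fun v => ?_⟩
  rw [Term.realize_relabel, ht]
  rfl

/-- substitution of terms in a definable predicate -/
lemma DD.subst {β : Type} {P : (β → H) → Prop} (hP : DD P) {f : β → (α → H) → H}
    (hf : ∀ b, TD (f b)) : DD (fun v => P (fun b => f b v)) := by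
  obtain ⟨φ, h⟩ := hP
  choose t ht using hf
  refine ⟨φ.subst t, fun v => ?_⟩
  have : (fun a => Term.realize v (t a)) = fun b => f b v := funext fun b => ht b v
  change _ ↔ P (fun b => f b v)
  rw [← h, Formula.Realize, BoundedFormula.realize_subst, this]
  rfl

/-- a binary predicate definable along all terms -/
def DD2 (A : H → H → Prop) : Prop :=
  ∀ (α : Type) (f g : (α → H) → H), TD f → TD g → DD (fun v => A (f v) (g v))

lemma DD.isUnit {f : (α → H) → H} (hf : TD f) : DD (fun v => IsUnit (f v)) := by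
  simp only [isUnit_iff_exists_inv]
  apply DD.ex
  exact DD.eq ((hf.wk Sum.inl).mul (TD.var _)) TD.one

lemma DD.dvd {f g : (α → H) → H} (hf : TD f) (hg : TD g) : DD (fun v => f v ∣ g v) := by
  simp only [dvd_def]
  apply DD.ex
  exact DD.eq (hg.wk Sum.inl) ((hf.wk Sum.inl).mul (TD.var _))

/-- the predicate of being zero or a unit -/
def KK (x : H) : Prop := x = 0 ∨ IsUnit x

lemma DD.KK {f : (α → H) → H} (hf : TD f) : DD (fun v => KK (f v)) :=
  (DD.eq hf TD.zero).or (DD.isUnit hf)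

lemma DD2.KK : DD2 (H := H) (fun _ x => MP_f7662b_lc.KK x) := fun _ _ _ _ hg => DD.KK hg

variable {σ : Type} [Fintype σ] [DecidableEq σ]

omit [DecidableEq σ] in
lemma DD.InI {y c : σ → (α → H) → H} {f : (α → H) → H} (hy : ∀ i, TD (y i))
    (hc : ∀ i, TD (c i)) (hf : TD f) :
    DD (fun v => InI (fun i => y i v) (fun i => c i v) (f v)) := by
  unfold MP_f7662b_lc.InI
  apply DD.exFun σ
  apply DD.eq (hf.wk Sum.inl)
  apply TD.sum
  intro i
  exact (TD.var _).mul (((hy i).wk Sum.inl).sub ((hc i).wk Sum.inl))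

lemma DD.InJ (i0 : σ) {y c : σ → (α → H) → H} {f : (α → H) → H} (hy : ∀ i, TD (y i))
    (hc : ∀ i, TD (c i)) (hf : TD f) :
    DD (fun v => InJ i0 (fun i => y i v) (fun i => c i v) (f v)) := by
  unfold MP_f7662b_lc.InJ
  apply DD.exFun σ
  apply DD.eq (hf.wk Sum.inl)
  apply TD.sum
  intro i
  apply (TD.var _).mul
  apply ((((hc i0).wk Sum.inl).mul ((hy i).wk Sum.inl))).sub
  exact TD.ite _ TD.one ((hc i).wk Sum.inl)

lemma DD.VV {A : H → H → Prop} (hA : DD2 A) (i0 : σ) {y0 : (α → H) → H} (hy0 : TD y0)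
    {y : σ → (α → H) → H} {h T : (α → H) → H} (hy : ∀ i, TD (y i)) (hh : TD h) (hT : TD T) :
    DD (fun v => VV (A (y0 v)) i0 (fun i => y i v) (h v) (T v)) := by
  unfold MP_f7662b_lc.VV
  apply DD.ex
  apply DD.allFun σ
  apply DD.imp
  · apply DD.allFin
    intro i
    exact hA _ _ _ ((hy0.wk Sum.inl).wk Sum.inl) (TD.var _)
  apply DD.imp
  · exact DD.ne (TD.var _) TD.zero
  apply DD.all
  apply DD.all
  have W : ∀ {f : (α → H) → H}, TD f → TD (fun v : (((α ⊕ Unit) ⊕ σ) ⊕ Unit) ⊕ Unit → H =>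
      f (fun a => v (Sum.inl (Sum.inl (Sum.inl (Sum.inl a)))))) := by
    intro f hf
    exact (((hf.wk Sum.inl).wk Sum.inl).wk Sum.inl).wk Sum.inl
  apply DD.imp (hA _ _ _ (W hy0) (TD.var _))
  apply DD.imp (hA _ _ _ (W hy0) (TD.var _))
  apply DD.imp
  · exact DD.InI (fun i => W (hy i)) (fun i => TD.var _) ((TD.var _).sub (TD.var _))
  apply DD.imp
  · exact DD.InI (fun i => W (hy i)) (fun i => TD.var _) ((W hT).sub (TD.var _))
  exact DD.InJ i0 (fun i => W (hy i)) (fun i => TD.var _)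
    (((TD.var _).mul (W hh)).sub (TD.var _))

lemma DD.Theta {A : H → H → Prop} (hA : DD2 A) (i0 : σ) {y0 : (α → H) → H} (hy0 : TD y0)
    {y : σ → (α → H) → H} (hy : ∀ i, TD (y i)) :
    DD (fun v => Theta (A (y0 v)) i0 (fun i => y i v)) := by
  unfold MP_f7662b_lc.Theta
  apply DD.and
  · exact (DD.isUnit (hy i0)).not
  apply DD.and
  · apply DD.all
    apply DD.ex
    apply DD.and
    · exact DD.ne (TD.var _) TD.zero
    · exact DD.VV hA i0 ((hy0.wk Sum.inl).wk Sum.inl)
        (fun i => ((hy i).wk Sum.inl).wk Sum.inl) (TD.var _) (TD.var _)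
  · apply DD.all
    apply DD.all
    apply DD.imp
    · exact DD.ne (TD.var _) TD.zero
    apply DD.imp
    · exact DD.VV hA i0 ((hy0.wk Sum.inl).wk Sum.inl)
        (fun i => ((hy i).wk Sum.inl).wk Sum.inl) (TD.var _) (TD.var _)
    apply DD.or
    · exact hA _ _ _ ((hy0.wk Sum.inl).wk Sum.inl) (TD.var _)
    apply DD.ex
    apply DD.ex
    apply DD.exFun σ
    have W : ∀ {f : (α → H) → H}, TD f →
        TD (fun v : ((((α ⊕ Unit) ⊕ Unit) ⊕ Unit) ⊕ Unit) ⊕ σ → H =>
        f (fun a => v (Sum.inl (Sum.inl (Sum.inl (Sum.inl (Sum.inl a))))))) := by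
      intro f hf
      exact ((((hf.wk Sum.inl).wk Sum.inl).wk Sum.inl).wk Sum.inl).wk Sum.inl
    apply DD.and
    · exact DD.eq (TD.var _) ((TD.var _).mul (W (hy i0)))
    apply DD.and
    · exact hA _ _ _ (W hy0) (TD.var _)
    apply DD.and
    · apply DD.allFin
      intro i
      exact DD.VV hA i0 (W hy0) (fun i => W (hy i)) (TD.var _) (TD.var _)
    · apply DD.eq (TD.var _)
      apply (TD.var _).add
      apply TD.sum
      intro i
      exact (TD.var _).mul (W (hy i))

end Def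

end Pool.Agent.Lib.MP_f7662b_lc
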