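import Mathlib
import Pool.Agent.Lib.MP_f7662b_lc.Definable

set_option autoImplicit false

namespace Pool.Agent.Lib.MP_f7662b_lc

open MvPolynomial

section Preds

variable {H : Type*} [CommRing H]

/-- nonzero and every divisor is a unit or a multiple of `y0` -/
def PW (y0 s : H) : Prop := s ≠ 0 ∧ ∀ d, d ∣ s → IsUnit d ∨ y0 ∣ d

/-- zero or a divisor of a nonzero difference of two elements satisfying `PW y0` -/
def AF (y0 f : H) : Prop := f = 0 ∨ ∃ s t, PW y0 s ∧ PW y0 t ∧ s ≠ t ∧ f ∣ s - t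

/-- one-variable Horner condition for a set `A` -/
def Base (A : H → Prop) (y0 : H) : Prop :=
  ¬ KK y0 ∧ ∀ f, A f → ∃ c f', KK c ∧ A f' ∧ f = c + y0 * f'

end Preds

section Sound

variable {k : Type*} [Field k] {σ : Type*}

lemma KK_iff (x : MvPolynomial σ k) : KK x ↔ ∃ r, x = C r := by
  constructor
  · rintro (h | h)
    · exact ⟨0, by simp [h]⟩
    · obtain ⟨r, _, hr⟩ := isUnit_iff_eq_C_of_isReduced.mp h
      exact ⟨r, hr⟩
  · rintro ⟨r, rfl⟩
    by_cases h : r = 0
    · left; simp [h]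
    · right
      exact (isUnit_iff_ne_zero.mpr h).map C

lemma Base.sound {A : MvPolynomial σ k → Prop} {y0 : MvPolynomial σ k} (hB : Base A y0)
    (S : Subring (MvPolynomial σ k)) (hC : ∀ a, C a ∈ S) (hy : y0 ∈ S) :
    ∀ f, A f → f ∈ S := by
  obtain ⟨hy0, hstep⟩ := hB
  have hdeg : y0.totalDegree ≠ 0 := by
    intro h0
    apply hy0
    rw [KK_iff]
    exact ⟨_, totalDegree_eq_zero_iff_eq_C.mp h0⟩
  have hy00 : y0 ≠ 0 := by
    rintro rfl
    exact hy0 (Or.inl rfl)
  have key : ∀ n : ℕ, ∀ f, A f → f.totalDegree ≤ n → f ∈ S := by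
    intro n
    induction n with
    | zero =>
      intro f _ hf
      rw [Nat.le_zero, totalDegree_eq_zero_iff_eq_C] at hf
      rw [hf]
      exact hC _
    | succ n ih =>
      intro f hA hf
      obtain ⟨c, f', hc, hf', rfl⟩ := hstep f hA
      obtain ⟨r, rfl⟩ := (KK_iff c).mp hc
      apply S.add_mem (hC r)
      by_cases h0 : f' = 0
      · simp [h0]
      · apply S.mul_mem hy
        apply ih f' hf'
        have h1 : (y0 * f').totalDegree = y0.totalDegree + f'.totalDegree :=
          totalDegree_mul_of_isDomain hy00 h0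
        have h2 : (y0 * f').totalDegree ≤ (C r + y0 * f').totalDegree := by
          have h3 : y0 * f' = (C r + y0 * f') - C r := by ring
          conv_lhs => rw [h3]
          apply (totalDegree_sub _ _).trans
          simp
        omega
  exact fun f hf => key _ f hf le_rfl

end Sound

section Standard

variable {k : Type*} [Field k]

/-- splitting off the first variable -/
noncomputable def Phi (k : Type*) [Field k] (n : ℕ) :
    MvPolynomial (Fin n) (Polynomial k) ≃+* MvPolynomial (Fin (n + 1)) k :=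
  ((optionEquivRight k (Fin n)).symm.trans
    (renameEquiv k (finSuccEquiv n).symm)).toRingEquiv

lemma Phi_X (n : ℕ) (i : Fin n) : Phi k n (X i) = X i.succ := by
  have : (optionEquivRight k (Fin n)).symm (X i) = X (some i) := by
    rw [AlgEquiv.symm_apply_eq, optionEquivRight_X_some]
  simp [Phi, this]

lemma Phi_C_X (n : ℕ) : Phi k n (C Polynomial.X) = X 0 := by
  have : (optionEquivRight k (Fin n)).symm (C Polynomial.X) = X none := by
    rw [AlgEquiv.symm_apply_eq, optionEquivRight_X_none]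
  simp [Phi, this]

lemma Phi_C_C (n : ℕ) (a : k) : Phi k n (C (Polynomial.C a)) = C a := by
  have : (optionEquivRight k (Fin n)).symm (C (Polynomial.C a)) = C a := by
    rw [AlgEquiv.symm_apply_eq, optionEquivRight_C]
  simp [Phi, this]

lemma PW_iff (n : ℕ) (s : MvPolynomial (Fin (n + 1)) k) :
    PW (X 0) s ↔ ∃ (u : k) (N : ℕ), u ≠ 0 ∧ s = C u * X 0 ^ N := by
  constructor
  · rintro ⟨hs, hd⟩
    have hfin : FiniteMultiplicity (X 0 : MvPolynomial (Fin (n + 1)) k) s := by
      refine ⟨s.totalDegree, fun hdvd => ?_⟩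
      have := totalDegree_le_of_dvd_of_isDomain hdvd hs
      rw [totalDegree_X_pow] at this
      omega
    obtain ⟨s1, hs1, hnd⟩ := hfin.exists_eq_pow_mul_and_not_dvd
    rcases hd s1 ⟨_, hs1.trans (mul_comm _ _)⟩ with h | h
    · obtain ⟨u, hu, rfl⟩ := isUnit_iff_eq_C_of_isReduced.mp h
      exact ⟨u, _, hu.ne_zero, hs1.trans (mul_comm _ _)⟩
    · exact absurd h hnd
  · rintro ⟨u, N, hu, rfl⟩
    have hu' : IsUnit (C u : MvPolynomial (Fin (n + 1)) k) :=
      (isUnit_iff_ne_zero.mpr hu).map C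
    refine ⟨mul_ne_zero hu'.ne_zero (pow_ne_zero _ (X_ne_zero _)), ?_⟩
    intro d hd
    rw [hu'.dvd_mul_left, dvd_prime_pow X_prime] at hd
    obtain ⟨i, _, hi⟩ := hd
    cases i with
    | zero =>
      left
      rw [pow_zero] at hi
      exact associated_one_iff_isUnit.mp hi
    | succ i =>
      right
      exact (dvd_pow_self _ (Nat.succ_ne_zero i)).trans hi.symm.dvd

/-- over a finite field each nonzero polynomial divides a difference of two powers of `X` -/
lemma exists_dvd_pow_sub_pow [Finite k] (p : Polynomial k) (hp : p ≠ 0) :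
    ∃ i j : ℕ, i ≠ j ∧ p ∣ Polynomial.X ^ i - Polynomial.X ^ j := by
  have hfd : Module.Finite k (AdjoinRoot p) := (AdjoinRoot.powerBasis hp).finite
  have hfin : Finite (AdjoinRoot p) := Module.finite_of_finite k
  obtain ⟨i, j, hij, h⟩ :=
    Finite.exists_ne_map_eq_of_infinite (fun i : ℕ => (AdjoinRoot.root p) ^ i)
  refine ⟨i, j, hij, ?_⟩
  rw [← AdjoinRoot.mk_eq_zero, map_sub, map_pow, map_pow, AdjoinRoot.mk_X]
  exact sub_eq_zero.mpr h

lemma AF_iff [Finite k] (n : ℕ) (f : MvPolynomial (Fin (n + 1)) k) :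
    AF (X 0) f ↔ ∃ p : Polynomial k, f = Phi k n (C p) := by
  constructor
  · rintro (h | ⟨s, t, hs, ht, hst, hdvd⟩)
    · exact ⟨0, by simp [h]⟩
    · obtain ⟨u, N, hu, rfl⟩ := (PW_iff n s).mp hs
      obtain ⟨v, M, hv, rfl⟩ := (PW_iff n t).mp ht
      obtain ⟨F, rfl⟩ := (Phi k n).surjective f
      have h1 : (C u * X 0 ^ N - C v * X 0 ^ M : MvPolynomial (Fin (n + 1)) k) =
          Phi k n (C (Polynomial.C u * Polynomial.X ^ N - Polynomial.C v * Polynomial.X ^ M)) := by
        simp only [map_sub, map_mul, map_pow, Phi_C_C, Phi_C_X]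
      set p := Polynomial.C u * Polynomial.X ^ N - Polynomial.C v * Polynomial.X ^ M with hp
      have hp0 : (C p : MvPolynomial (Fin n) (Polynomial k)) ≠ 0 := by
        intro h0
        rw [h0, map_zero, sub_eq_zero] at h1
        exact hst h1
      rw [h1] at hdvd
      have h2 : F ∣ C p := by
        obtain ⟨q, hq⟩ := hdvd
        obtain ⟨Q, rfl⟩ := (Phi k n).surjective q
        refine ⟨Q, (Phi k n).injective ?_⟩
        rw [hq, map_mul]
      have h3 := totalDegree_le_of_dvd_of_isDomain h2 hp0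
      rw [totalDegree_C, Nat.le_zero, totalDegree_eq_zero_iff_eq_C] at h3
      exact ⟨_, congrArg (Phi k n) h3⟩
  · rintro ⟨p, rfl⟩
    by_cases hp : p = 0
    · left
      simp [hp]
    · right
      obtain ⟨i, j, hij, hd⟩ := exists_dvd_pow_sub_pow p hp
      refine ⟨X 0 ^ i, X 0 ^ j, (PW_iff n _).mpr ⟨1, i, one_ne_zero, by simp⟩,
        (PW_iff n _).mpr ⟨1, j, one_ne_zero, by simp⟩, ?_, ?_⟩
      · intro h
        apply hij
        have := congrArg totalDegree h
        simpa [totalDegree_X_pow] using this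
      · obtain ⟨q, hq⟩ := hd
        refine ⟨Phi k n (C q), ?_⟩
        rw [← map_mul, ← map_mul, ← hq]
        simp only [map_sub, map_pow, Phi_C_X]

lemma Base_standard [Finite k] (n : ℕ) :
    Base (AF (X 0 : MvPolynomial (Fin (n + 1)) k)) (X 0) := by
  constructor
  · rw [KK_iff]
    rintro ⟨r, hr⟩
    have := congrArg totalDegree hr
    simp at this
  · intro f hf
    obtain ⟨p, rfl⟩ := (AF_iff n f).mp hf
    refine ⟨C (p.coeff 0), Phi k n (C p.divX), (KK_iff _).mpr ⟨_, rfl⟩,
      (AF_iff n _).mpr ⟨_, rfl⟩, ?_⟩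
    rw [← Phi_C_X n, ← Phi_C_C n, ← map_mul, ← map_add, ← map_mul, ← map_add]
    congr 2
    conv_lhs => rw [← Polynomial.divX_mul_X_add p]
    ring

lemma Base_standard_one :
    Base (fun _ => True) (X 0 : MvPolynomial (Fin 1) k) := by
  constructor
  · rw [KK_iff]
    rintro ⟨r, hr⟩
    have := congrArg totalDegree hr
    simp at this
  · intro f _
    obtain ⟨b, w, _, hw⟩ := horner f.totalDegree f (Nat.le_succ _)
    refine ⟨C b, w 0, (KK_iff _).mpr ⟨_, rfl⟩, trivial, ?_⟩
    conv_lhs => rw [hw]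
    simp [mul_comm]

end Standard

end Pool.Agent.Lib.MP_f7662b_lc
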