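import Mathlib
import Pool.Agent.Lib.MP_f7662b_lc.FiniteCase

set_option autoImplicit false

namespace Pool.Agent.Lib.MP_f7662b_lc

open FirstOrder FirstOrder.Language FirstOrder.Ring MvPolynomial

section Def

variable {H : Type*} [CommRing H] [CompatibleRing H] {α : Type}

lemma DD.PW {f g : (α → H) → H} (hf : TD f) (hg : TD g) : DD (fun v => PW (f v) (g v)) := by
  unfold MP_f7662b_lc.PW
  apply DD.and
  · exact DD.ne hg TD.zero
  · apply DD.all
    apply DD.imp
    · exact DD.dvd (TD.var _) (hg.wk Sum.inl)
    · apply DD.or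
      · exact DD.isUnit (TD.var _)
      · exact DD.dvd (hf.wk Sum.inl) (TD.var _)

lemma DD.AF {f g : (α → H) → H} (hf : TD f) (hg : TD g) : DD (fun v => AF (f v) (g v)) := by
  unfold MP_f7662b_lc.AF
  apply DD.or
  · exact DD.eq hg TD.zero
  · apply DD.ex
    apply DD.ex
    apply DD.and
    · exact DD.PW ((hf.wk Sum.inl).wk Sum.inl) (TD.var _)
    apply DD.and
    · exact DD.PW ((hf.wk Sum.inl).wk Sum.inl) (TD.var _)
    apply DD.and
    · exact DD.ne (TD.var _) (TD.var _)
    · exact DD.dvd ((hg.wk Sum.inl).wk Sum.inl) ((TD.var _).sub (TD.var _))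

lemma DD2.AF : DD2 (H := H) MP_f7662b_lc.AF := fun _ _ _ hf hg => DD.AF hf hg

lemma DD2.true : DD2 (H := H) (fun _ _ => True) := fun _ _ _ _ _ => DD.true

lemma DD.Base {A : H → H → Prop} (hA : DD2 A) {f : (α → H) → H} (hf : TD f) :
    DD (fun v => Base (A (f v)) (f v)) := by
  unfold MP_f7662b_lc.Base
  apply DD.and
  · exact (DD.KK hf).not
  · apply DD.all
    apply DD.imp
    · exact hA _ _ _ (hf.wk Sum.inl) (TD.var _)
    apply DD.ex
    apply DD.ex
    apply DD.and
    · exact DD.KK (TD.var _)
    apply DD.and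
    · exact hA _ _ _ (((hf.wk Sum.inl).wk Sum.inl).wk Sum.inl) (TD.var _)
    · exact DD.eq (TD.var _)
        ((TD.var _).add ((((hf.wk Sum.inl).wk Sum.inl).wk Sum.inl).mul (TD.var _)))

end Def

section Main

/-- a surjective endomorphism of a Noetherian ring is injective -/
lemma injective_of_surjective_endo {A : Type*} [CommRing A] [IsNoetherianRing A] (f : A →+* A)
    (hf : Function.Surjective f) : Function.Injective f := by
  let g : ℕ → (A →+* A) := fun n => f ^ n
  have hg : ∀ n x, g (n + 1) x = f (g n x) := fun n x => by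
    simp only [g, pow_succ']
    rfl
  have hgs : ∀ n, Function.Surjective (g n) := by
    intro n
    induction n with
    | zero => exact fun x => ⟨x, rfl⟩
    | succ n ih =>
      intro x
      obtain ⟨y, rfl⟩ := hf x
      obtain ⟨z, rfl⟩ := ih y
      exact ⟨z, hg n z⟩
  have hmono : Monotone (fun n => RingHom.ker (g n)) := by
    apply monotone_nat_of_le_succ
    intro n x hx
    rw [RingHom.mem_ker] at hx ⊢
    rw [hg, hx, map_zero]
  obtain ⟨n, hn⟩ := monotone_stabilizes_iff_noetherian.mpr (inferInstance : IsNoetherian A A)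
    ⟨fun n => RingHom.ker (g n), hmono⟩
  rw [injective_iff_map_eq_zero]
  intro x hx
  obtain ⟨z, rfl⟩ := hgs n x
  have h1 : z ∈ RingHom.ker (g (n + 1)) := by
    rw [RingHom.mem_ker, hg, hx]
  have h2 := hn (n + 1) (Nat.le_succ n)
  change RingHom.ker (g n) = RingHom.ker (g (n + 1)) at h2
  rw [← h2, RingHom.mem_ker] at h1
  exact h1

/-- In every polynomial ring over a field, some parameter-free first-order condition holds for the
standard generators and forces a tuple to generate the ring. -/
theorem exists_cond (k : Type) [Field k] (n : ℕ) [CompatibleRing (MvPolynomial (Fin n) k)] :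
    ∃ P : (Fin n → MvPolynomial (Fin n) k) → Prop, DD P ∧ P X ∧
      ∀ y, P y → ∀ S : Subring (MvPolynomial (Fin n) k), (∀ a, C a ∈ S) → (∀ i, y i ∈ S) →
        ∀ h, h ∈ S := by
  rcases n with _ | n
  · refine ⟨fun _ => True, DD.true, trivial, ?_⟩
    intro y _ S hC _ h
    have : h = C (coeff 0 h) := by
      rw [← totalDegree_eq_zero_iff_eq_C]
      have := totalDegree_le_degrees_card h
      have h2 : h.degrees = 0 := by
        apply Multiset.eq_zero_of_forall_notMem
        intro i
        exact i.elim0
      rw [h2] at this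
      simpa using this
    rw [this]
    exact hC _
  · by_cases hk : Finite k
    · rcases n with _ | n
      · refine ⟨fun y => Base ((fun _ _ => True) (y 0)) (y 0),
          DD.Base DD2.true (TD.var _), Base_standard_one, ?_⟩
        intro y hy S hC hyS h
        exact Base.sound hy S hC (hyS 0) h trivial
      · refine ⟨fun y => Base (AF (y 0)) (y 0) ∧
          Theta (AF (y 0)) (0 : Fin (n + 1)) (fun i => y i.succ),
          (DD.Base DD2.AF (TD.var _)).and
            (DD.Theta DD2.AF 0 (TD.var _) (fun i => TD.var _)), ?_, ?_⟩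
        · refine ⟨Base_standard (n + 1), ?_⟩
          have h1 := Theta_standard (Phi k (n + 1)) (0 : Fin (n + 1))
          have h2 : (fun f => ∃ r, f = Phi k (n + 1) (C r)) = AF (X 0) := by
            funext f
            exact propext (AF_iff (n + 1) f).symm
          have h3 : (fun i => Phi k (n + 1) (X i)) = fun i => X i.succ := by
            funext i
            exact Phi_X (n + 1) i
          rw [h2, h3] at h1
          exact h1
        · rintro y ⟨hB, hT⟩ S hC hyS h
          exact hT.mem_of S (hB.sound S hC (hyS 0)) (fun i => hyS _) h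
    · have hk' : Infinite k := not_finite_iff_infinite.mp hk
      refine ⟨fun y => Theta ((fun _ x => KK x) (y 0)) (0 : Fin (n + 1)) (fun i => y i),
        DD.Theta (A := fun _ x => KK x) DD2.KK 0 (TD.var 0) (fun i => TD.var _), ?_, ?_⟩
      · have h1 := Theta_standard (RingEquiv.refl (MvPolynomial (Fin (n + 1)) k)) (0 : Fin (n + 1))
        have h2 : (fun f => ∃ r, f = RingEquiv.refl (MvPolynomial (Fin (n + 1)) k) (C r)) =
            KK := by
          funext f
          exact propext (KK_iff f).symm
        rw [h2] at h1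
        exact h1
      · intro y hT S hC hyS h
        apply hT.mem_of S _ hyS h
        intro a ha
        obtain ⟨r, rfl⟩ := (KK_iff a).mp ha
        exact hC r

theorem homogeneous (k : Type) [Field k] (n m : ℕ) (a b : Fin m → MvPolynomial (Fin n) k)
    (hab : ∀ (r : ℕ) (c : Fin r → k) (φ : FirstOrder.Language.ring.Formula (Fin m ⊕ Fin r)),
        (@FirstOrder.Language.Formula.Realize FirstOrder.Language.ring (MvPolynomial (Fin n) k)
            (FirstOrder.Ring.compatibleRingOfRing (MvPolynomial (Fin n) k)).toStructure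
            (Fin m ⊕ Fin r) φ (Sum.elim a (fun i => algebraMap k (MvPolynomial (Fin n) k) (c i))) ↔
          @FirstOrder.Language.Formula.Realize FirstOrder.Language.ring (MvPolynomial (Fin n) k)
            (FirstOrder.Ring.compatibleRingOfRing (MvPolynomial (Fin n) k)).toStructure
            (Fin m ⊕ Fin r) φ (Sum.elim b (fun i => algebraMap k (MvPolynomial (Fin n) k) (c i))))) :
    ∃ σ : MvPolynomial (Fin n) k ≃ₐ[k] MvPolynomial (Fin n) k, ∀ i, σ (a i) = b i := by
  let _ := FirstOrder.Ring.compatibleRingOfRing (MvPolynomial (Fin n) k)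
  obtain ⟨P, hPd, hPX, hPs⟩ := exists_cond k n
  -- the index type of the coefficients
  let ι := Σ i : Fin m, (a i).support
  let e : ι ≃ Fin (Fintype.card ι) := Fintype.equivFin ι
  let c0 : ι → k := fun p => coeff p.2.1 (a p.1)
  let c : Fin (Fintype.card ι) → k := fun j => c0 (e.symm j)
  have hdef : DD (H := MvPolynomial (Fin n) k) (fun v : Fin m ⊕ Fin (Fintype.card ι) →
      MvPolynomial (Fin n) k => ∃ y : Fin n → MvPolynomial (Fin n) k, P y ∧
        ∀ i : Fin m, v (Sum.inl i) = ∑ α : (a i).support, v (Sum.inr (e ⟨i, α⟩)) *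
          ∏ j, y j ^ (α.1 j)) := by
    apply DD.exFun (Fin n)
    apply DD.and
    · exact DD.subst hPd (fun j => TD.var _)
    · apply DD.allFin
      intro i
      apply DD.eq (TD.var _)
      apply TD.sum
      intro α
      apply (TD.var _).mul
      apply TD.prod
      intro j
      exact (TD.var _).pow _
  obtain ⟨φ, hφ⟩ := hdef
  have h1 := hab _ c φ
  have hsum : ∀ (y : Fin n → MvPolynomial (Fin n) k) (i : Fin m),
      ∑ α : (a i).support, (algebraMap k (MvPolynomial (Fin n) k) (c (e ⟨i, α⟩))) *
          ∏ j, y j ^ (α.1 j) = aeval y (a i) := by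
    intro y i
    have h2 : ∀ α : (a i).support, c (e ⟨i, α⟩) = coeff α.1 (a i) := by
      intro α
      change c0 (e.symm (e ⟨i, α⟩)) = _
      rw [Equiv.symm_apply_apply]
    simp only [h2]
    rw [aeval_def, eval₂_eq']
    exact Finset.sum_coe_sort (a i).support (fun α => algebraMap k (MvPolynomial (Fin n) k)
      (coeff α (a i)) * ∏ j, y j ^ (α j))
  have h3 : φ.Realize (Sum.elim a (fun i => algebraMap k (MvPolynomial (Fin n) k) (c i))) := by
    rw [hφ]
    refine ⟨X, hPX, fun i => ?_⟩
    simp only [Sum.elim_inl, Sum.elim_inr]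
    rw [hsum X i, aeval_X_left_apply]
  rw [h1, hφ] at h3
  obtain ⟨y, hPy, hy⟩ := h3
  have hy' : ∀ i, b i = aeval y (a i) := by
    intro i
    have := hy i
    simp only [Sum.elim_inl, Sum.elim_inr] at this
    rw [this, hsum y i]
  have hsurj : Function.Surjective (aeval y : MvPolynomial (Fin n) k →ₐ[k] MvPolynomial (Fin n) k) := by
    intro h
    have := hPs y hPy (aeval y : MvPolynomial (Fin n) k →ₐ[k] MvPolynomial (Fin n) k).toRingHom.range
      (fun r => ⟨C r, by simp⟩) (fun i => ⟨X i, by simp⟩) h
    exact this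
  have hbij : Function.Bijective (aeval y : MvPolynomial (Fin n) k →ₐ[k] MvPolynomial (Fin n) k) := by
    exact ⟨injective_of_surjective_endo
      (aeval y : MvPolynomial (Fin n) k →ₐ[k] MvPolynomial (Fin n) k).toRingHom hsurj, hsurj⟩
  exact ⟨AlgEquiv.ofBijective _ hbij, fun i => (hy' i).symm⟩

end Main

end Pool.Agent.Lib.MP_f7662b_lc
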