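import Mathlib
import Pool.Agent.Lib.MP_f7662b_lc.Main

set_option autoImplicit false

namespace Pool.Agent.Lib.MP_f7662b_lc

open FirstOrder FirstOrder.Language FirstOrder.Ring MvPolynomial

universe u

/-- In every polynomial ring over a field, some parameter-free first-order condition holds for the
standard generators and forces a tuple to generate the ring. -/
theorem exists_cond_univ (k : Type u) [Field k] (n : ℕ) [CompatibleRing (MvPolynomial (Fin n) k)] :
    ∃ P : (Fin n → MvPolynomial (Fin n) k) → Prop, DD P ∧ P X ∧
      ∀ y, P y → ∀ S : Subring (MvPolynomial (Fin n) k), (∀ a, C a ∈ S) → (∀ i, y i ∈ S) →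
        ∀ h, h ∈ S := by
  rcases n with _ | n
  · refine ⟨fun _ => True, DD.true, trivial, ?_⟩
    intro y _ S hC _ h
    have : h = C (coeff 0 h) := by
      rw [← totalDegree_eq_zero_iff_eq_C]
      have := totalDegree_le_degrees_card h
      have h2 : h.degrees = 0 := by
        apply Multiset.eq_zero_of_forall_notMem
        intro i
        exact i.elim0
      rw [h2] at this
      simpa using this
    rw [this]
    exact hC _
  · by_cases hk : Finite k
    · rcases n with _ | n
      · refine ⟨fun y => Base ((fun _ _ => True) (y 0)) (y 0),
          DD.Base DD2.true (TD.var _), Base_standard_one, ?_⟩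
        intro y hy S hC hyS h
        exact Base.sound hy S hC (hyS 0) h trivial
      · refine ⟨fun y => Base (AF (y 0)) (y 0) ∧
          Theta (AF (y 0)) (0 : Fin (n + 1)) (fun i => y i.succ),
          (DD.Base DD2.AF (TD.var _)).and
            (DD.Theta DD2.AF 0 (TD.var _) (fun i => TD.var _)), ?_, ?_⟩
        · refine ⟨Base_standard (n + 1), ?_⟩
          have h1 := Theta_standard (Phi k (n + 1)) (0 : Fin (n + 1))
          have h2 : (fun f => ∃ r, f = Phi k (n + 1) (C r)) = AF (X 0) := by
            funext f
            exact propext (AF_iff (n + 1) f).symm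
          have h3 : (fun i => Phi k (n + 1) (X i)) = fun i => X i.succ := by
            funext i
            exact Phi_X (n + 1) i
          rw [h2, h3] at h1
          exact h1
        · rintro y ⟨hB, hT⟩ S hC hyS h
          exact hT.mem_of S (hB.sound S hC (hyS 0)) (fun i => hyS _) h
    · have hk' : Infinite k := not_finite_iff_infinite.mp hk
      refine ⟨fun y => Theta ((fun _ x => KK x) (y 0)) (0 : Fin (n + 1)) (fun i => y i),
        DD.Theta (A := fun _ x => KK x) DD2.KK 0 (TD.var 0) (fun i => TD.var _), ?_, ?_⟩
      · have h1 := Theta_standard (RingEquiv.refl (MvPolynomial (Fin (n + 1)) k)) (0 : Fin (n + 1))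
        have h2 : (fun f => ∃ r, f = RingEquiv.refl (MvPolynomial (Fin (n + 1)) k) (C r)) =
            KK := by
          funext f
          exact propext (KK_iff f).symm
        rw [h2] at h1
        exact h1
      · intro y hT S hC hyS h
        apply hT.mem_of S _ hyS h
        intro a ha
        obtain ⟨r, rfl⟩ := (KK_iff a).mp ha
        exact hC r


end Pool.Agent.Lib.MP_f7662b_lc
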